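import Pool.Agent.Y315.OP.Stm

/-!
# OP-TR: distance to the mollification
-/

set_option autoImplicit false

open MeasureTheory Filter Topology
open scoped ContDiff ENNReal

namespace Pool.Agent.Y344.OP.TR

open Pool.Agent.Y315.OP

/-- weighted Cauchy-Schwarz -/
theorem cs {α : Type} [MeasurableSpace α] (μ : Measure α) (w f : α → ℝ≥0∞)
    (hw : AEMeasurable w μ) (hf : AEMeasurable f μ) :
    (∫⁻ x, w x * f x ∂μ) ^ 2 ≤ (∫⁻ x, w x ∂μ) * ∫⁻ x, w x * f x ^ 2 ∂μ := by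
  have h := ENNReal.lintegral_mul_le_Lp_mul_Lq μ (Real.holderConjugate_iff.2 ⟨one_lt_two, by norm_num⟩ : (2:ℝ).HolderConjugate 2)
    (f := fun x => w x ^ (1 / 2 : ℝ)) (g := fun x => w x ^ (1 / 2 : ℝ) * f x)
    (hw.pow_const _) ((hw.pow_const _).mul hf)
  have e0 : ∀ x, w x ^ (1 / 2 : ℝ) * w x ^ (1 / 2 : ℝ) = w x := fun x => by
    rw [← ENNReal.rpow_add_of_nonneg _ _ (by norm_num) (by norm_num)]
    norm_num
  have e1 : ∀ x, ((fun x => w x ^ (1 / 2 : ℝ)) * fun x => w x ^ (1 / 2 : ℝ) * f x) x =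
      w x * f x := fun x => by
    simp only [Pi.mul_apply]
    rw [← mul_assoc, e0]
  have e2 : ∀ x, (w x ^ (1 / 2 : ℝ)) ^ (2 : ℝ) = w x := fun x => by
    rw [← ENNReal.rpow_mul]
    norm_num
  have e3 : ∀ x, (w x ^ (1 / 2 : ℝ) * f x) ^ (2 : ℝ) = w x * f x ^ 2 := fun x => by
    rw [ENNReal.mul_rpow_of_nonneg _ _ (by norm_num), e2, ENNReal.rpow_two]
  simp only [e1, e2, e3] at h
  calc (∫⁻ x, w x * f x ∂μ) ^ 2
      ≤ ((∫⁻ x, w x ∂μ) ^ (1 / 2 : ℝ) * (∫⁻ x, w x * f x ^ 2 ∂μ) ^ (1 / 2 : ℝ)) ^ 2 := by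
        gcongr
    _ = (∫⁻ x, w x ∂μ) * ∫⁻ x, w x * f x ^ 2 ∂μ := by
        rw [mul_pow, ← ENNReal.rpow_two, ← ENNReal.rpow_two, ← ENNReal.rpow_mul,
          ← ENNReal.rpow_mul]
        norm_num

/-- translations of smooth functions -/
theorem smooth_step {d : ℕ} (w : E d → ℝ) (hw : ContDiff ℝ ∞ w) (h : E d) :
    ∫⁻ x, ‖w (x - h) - w x‖ₑ ^ 2 ≤ ‖h‖ₑ ^ 2 * ∫⁻ x, ‖fderiv ℝ w x‖ₑ ^ 2 := by
  have hc : Continuous (fderiv ℝ w) := hw.continuous_fderiv (by simp)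
  have key : ∀ x, ‖w (x - h) - w x‖ₑ ^ 2 ≤
      ‖h‖ₑ ^ 2 * ∫⁻ s in Set.Ioc (0 : ℝ) 1, ‖fderiv ℝ w (x - s • h)‖ₑ ^ 2 := by
    intro x
    have hder : ∀ s : ℝ, HasDerivAt (fun s : ℝ => w (x - s • h))
        (- fderiv ℝ w (x - s • h) h) s := by
      intro s
      have h1 : HasFDerivAt w (fderiv ℝ w (x - s • h)) (x - s • h) :=
        ((hw.differentiable (by simp)) _).hasFDerivAt
      have h2 : HasDerivAt (fun s : ℝ => x - s • h) (- h) s := by
        have h3 := ((hasDerivAt_id s).smul_const h).const_sub x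
        simpa using h3
      have h4 := h1.comp_hasDerivAt s h2
      rw [map_neg] at h4
      exact h4
    have hcs : Continuous fun s : ℝ => fderiv ℝ w (x - s • h) := by fun_prop
    have hcd : Continuous fun s : ℝ => - fderiv ℝ w (x - s • h) h := by fun_prop
    have hftc : ∫ s in (0 : ℝ)..1, (- fderiv ℝ w (x - s • h) h) = w (x - h) - w x := by
      rw [intervalIntegral.integral_eq_sub_of_hasDerivAt (fun s _ => hder s)
        (hcd.intervalIntegrable _ _)]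
      simp
    rw [← hftc, intervalIntegral.integral_of_le zero_le_one]
    have h5 : ‖∫ s in Set.Ioc (0 : ℝ) 1, (- fderiv ℝ w (x - s • h) h)‖ₑ ≤
        ‖h‖ₑ * ∫⁻ s in Set.Ioc (0 : ℝ) 1, ‖fderiv ℝ w (x - s • h)‖ₑ := by
      refine le_trans (enorm_integral_le_lintegral_enorm _) ?_
      rw [← lintegral_const_mul' _ _ (by simp)]
      refine lintegral_mono fun s => ?_
      rw [enorm_neg, mul_comm]
      exact ContinuousLinearMap.le_opENorm _ _
    have h6 := cs (volume.restrict (Set.Ioc (0 : ℝ) 1)) (fun _ => 1)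
      (fun s => ‖fderiv ℝ w (x - s • h)‖ₑ) aemeasurable_const
      (hcs.enorm.measurable.aemeasurable)
    simp only [one_mul, lintegral_const, Measure.restrict_apply MeasurableSet.univ,
      Set.univ_inter, Real.volume_Ioc, sub_zero, ENNReal.ofReal_one] at h6
    calc ‖∫ s in Set.Ioc (0 : ℝ) 1, (- fderiv ℝ w (x - s • h) h)‖ₑ ^ 2
        ≤ (‖h‖ₑ * ∫⁻ s in Set.Ioc (0 : ℝ) 1, ‖fderiv ℝ w (x - s • h)‖ₑ) ^ 2 := by gcongr
      _ = ‖h‖ₑ ^ 2 * (∫⁻ s in Set.Ioc (0 : ℝ) 1, ‖fderiv ℝ w (x - s • h)‖ₑ) ^ 2 := mul_pow _ _ _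
      _ ≤ _ := by gcongr
  calc ∫⁻ x, ‖w (x - h) - w x‖ₑ ^ 2
      ≤ ∫⁻ x, ‖h‖ₑ ^ 2 * ∫⁻ s in Set.Ioc (0 : ℝ) 1, ‖fderiv ℝ w (x - s • h)‖ₑ ^ 2 :=
        lintegral_mono key
    _ = ‖h‖ₑ ^ 2 * ∫⁻ x, ∫⁻ s in Set.Ioc (0 : ℝ) 1, ‖fderiv ℝ w (x - s • h)‖ₑ ^ 2 := by
        rw [lintegral_const_mul' _ _ (by simp)]
    _ = ‖h‖ₑ ^ 2 * ∫⁻ s in Set.Ioc (0 : ℝ) 1, ∫⁻ x, ‖fderiv ℝ w (x - s • h)‖ₑ ^ 2 := by
        rw [lintegral_lintegral_swap]
        have h7 : Continuous (Function.uncurry fun (x : E d) (s : ℝ) =>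
            ‖fderiv ℝ w (x - s • h)‖ₑ ^ 2) := by
          have h8 : Continuous fun z : E d × ℝ => fderiv ℝ w (z.1 - z.2 • h) := by fun_prop
          exact (ENNReal.continuous_pow 2).comp h8.enorm
        exact h7.measurable.aemeasurable
    _ = ‖h‖ₑ ^ 2 * ∫⁻ s in Set.Ioc (0 : ℝ) 1, ∫⁻ x, ‖fderiv ℝ w x‖ₑ ^ 2 := by
        congr 1
        refine lintegral_congr fun s => ?_
        exact lintegral_sub_right_eq_self (fun x => ‖fderiv ℝ w x‖ₑ ^ 2) (s • h)
    _ = _ := by simp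

/-- the square of the norm of `L²` -/
theorem eLp {α F : Type} [MeasurableSpace α] [NormedAddCommGroup F] (μ : Measure α) (f : α → F) :
    eLpNorm f 2 μ ^ 2 = ∫⁻ x, ‖f x‖ₑ ^ 2 ∂μ := by
  have h := eLpNorm_nnreal_pow_eq_lintegral (μ := μ) (f := f) (p := 2) (by norm_num)
  simpa using h

/-- translations -/
theorem transl (h1 : S_MOL) (h2 : S_CONV) {d : ℕ} (hd : 1 ≤ d) (u : E d → ℝ) (g : E d → E d)
    (hu : MemLp u 2) (hg : MemLp g 2) (hug : WGrad u g) (h : E d) :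
    ∫⁻ x, ‖u (x - h) - u x‖ₑ ^ 2 ≤ ‖h‖ₑ ^ 2 * ∫⁻ x, ‖g x‖ₑ ^ 2 := by
  obtain ⟨ex, cv⟩ := h2 d hd
  have hr : ∀ n : ℕ, ∃ χ : E d → ℝ, Moll (1 / ((n : ℝ) + 1)) χ := fun n => ex _ (by positivity)
  choose χ hχ using hr
  obtain ⟨cu, -⟩ := cv (fun n : ℕ => 1 / ((n : ℝ) + 1)) χ tendsto_one_div_add_atTop_nhds_zero_nat hχ
  have lim := cu u hu
  have lim2 : Tendsto (fun n => eLpNorm (fun x => mol (χ n) u x - u x) 2 volume) atTop (𝓝 0) := by
    have h3 : Tendsto (fun n => (Y315.OP.sq (fun x => mol (χ n) u x - u x)) ^ (1 / 2 : ℝ)) atTop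
        (𝓝 ((0 : ℝ≥0∞) ^ (1 / 2 : ℝ))) :=
      (ENNReal.continuous_rpow_const.tendsto _).comp lim
    rw [ENNReal.zero_rpow_of_pos (by norm_num)] at h3
    refine h3.congr fun n => ?_
    unfold Y315.OP.sq
    rw [← eLp, ← ENNReal.rpow_two, ← ENNReal.rpow_mul]
    norm_num
  have bd : ∀ n, eLpNorm (fun x => u (x - h) - u x) 2 volume ≤
      eLpNorm (fun x => mol (χ n) u x - u x) 2 volume +
        (‖h‖ₑ * eLpNorm g 2 volume + eLpNorm (fun x => mol (χ n) u x - u x) 2 volume) := by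
    intro n
    obtain ⟨C, -, hC⟩ := h1 d (χ n) (hχ n).tf
    obtain ⟨sm, -, -, gr, -, gn⟩ := hC u hu
    have hsm := smooth_step _ sm h
    have hwc : Continuous (mol (χ n) u) := sm.continuous
    have hfg : ∀ x, ‖fderiv ℝ (mol (χ n) u) x‖ₑ ≤ ‖molg (χ n) g x‖ₑ := by
      intro x
      rw [enorm_le_iff_norm_le]
      refine ContinuousLinearMap.opNorm_le_bound _ (norm_nonneg _) fun v => ?_
      rw [gr g hg hug x v]
      exact norm_inner_le_norm _ _
    have hb : ∫⁻ x, ‖fderiv ℝ (mol (χ n) u) x‖ₑ ^ 2 ≤ ∫⁻ x, ‖g x‖ₑ ^ 2 := by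
      refine le_trans (lintegral_mono fun x => ?_) (gn _ g (hχ n) hg)
      gcongr
      exact hfg x
    have hb2 : eLpNorm (fun x => mol (χ n) u (x - h) - mol (χ n) u x) 2 volume ≤
        ‖h‖ₑ * eLpNorm g 2 volume := by
      have h4 : eLpNorm (fun x => mol (χ n) u (x - h) - mol (χ n) u x) 2 volume ^ 2 ≤
          (‖h‖ₑ * eLpNorm g 2 volume) ^ 2 := by
        rw [eLp, mul_pow, eLp]
        refine le_trans hsm ?_
        gcongr
      exact (ENNReal.pow_le_pow_left_iff two_ne_zero).1 h4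
    have ms : MeasurePreserving (fun x : E d => x - h) volume volume :=
      measurePreserving_sub_right volume h
    have aeu : AEStronglyMeasurable u volume := hu.1
    have aew : AEStronglyMeasurable (mol (χ n) u) volume := hwc.aestronglyMeasurable
    have aeus : AEStronglyMeasurable (fun x => u (x - h)) volume :=
      aeu.comp_measurePreserving ms
    have aews : AEStronglyMeasurable (fun x => mol (χ n) u (x - h)) volume :=
      aew.comp_measurePreserving ms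
    have hb3 : eLpNorm (fun x => u (x - h) - mol (χ n) u (x - h)) 2 volume =
        eLpNorm (fun x => mol (χ n) u x - u x) 2 volume := by
      have h5 := eLpNorm_comp_measurePreserving (p := 2) (aeu.sub aew) ms
      have h6 : eLpNorm (fun x => u (x - h) - mol (χ n) u (x - h)) 2 volume =
          eLpNorm (u - mol (χ n) u) 2 volume := h5
      rw [h6, ← eLpNorm_neg]
      congr 1
      ext x
      simp
    have e : (fun x => u (x - h) - u x) = (fun x => u (x - h) - mol (χ n) u (x - h)) +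
        ((fun x => mol (χ n) u (x - h) - mol (χ n) u x) + fun x => mol (χ n) u x - u x) := by
      ext x
      simp only [Pi.add_apply]
      ring
    rw [e]
    refine le_trans (eLpNorm_add_le (aeus.sub aews) ((aews.sub aew).add (aew.sub aeu))
      (by norm_num)) ?_
    rw [hb3]
    gcongr
    refine le_trans (eLpNorm_add_le (aews.sub aew) (aew.sub aeu) (by norm_num)) ?_
    gcongr
  have lim3 : Tendsto (fun n => eLpNorm (fun x => mol (χ n) u x - u x) 2 volume +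
        (‖h‖ₑ * eLpNorm g 2 volume + eLpNorm (fun x => mol (χ n) u x - u x) 2 volume)) atTop
        (𝓝 (0 + (‖h‖ₑ * eLpNorm g 2 volume + 0))) :=
    lim2.add (tendsto_const_nhds.add lim2)
  have fin := ge_of_tendsto' lim3 bd
  rw [zero_add, add_zero] at fin
  calc ∫⁻ x, ‖u (x - h) - u x‖ₑ ^ 2 = eLpNorm (fun x => u (x - h) - u x) 2 volume ^ 2 :=
        (eLp _ _).symm
    _ ≤ (‖h‖ₑ * eLpNorm g 2 volume) ^ 2 := by gcongr
    _ = _ := by rw [mul_pow, eLp]

/-- the strongly measurable case -/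
theorem tr_aux {d : ℕ} (r : ℝ) (χ : E d → ℝ) (hr : 0 < r) (hχ : Moll r χ)
    (u : E d → ℝ) (G : ℝ≥0∞) (hu : MemLp u 2) (hm : StronglyMeasurable u)
    (ht : ∀ h : E d, ∫⁻ x, ‖u (x - h) - u x‖ₑ ^ 2 ≤ ‖h‖ₑ ^ 2 * G) :
    Y315.OP.sq (fun x => mol χ u x - u x) ≤ ENNReal.ofReal (r ^ 2) * G := by
  have hcχ : Continuous χ := hχ.tf.1.continuous
  have iχ : Integrable χ := hcχ.integrable_of_hasCompactSupport hχ.tf.2
  have mχ : MemLp χ 2 := hcχ.memLp_of_hasCompactSupport hχ.tf.2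
  have lχ : ∫⁻ h, ‖χ h‖ₑ = 1 := by
    have h1 : ∫⁻ h, ‖χ h‖ₑ = ∫⁻ h, ENNReal.ofReal (χ h) := by
      refine lintegral_congr fun h => ?_
      rw [Real.enorm_eq_ofReal (hχ.nn h)]
    rw [h1, ← ofReal_integral_eq_lintegral_ofReal iχ (ae_of_all _ hχ.nn), hχ.int,
      ENNReal.ofReal_one]
  have e1 : ∀ x, mol χ u x - u x = ∫ h, χ h * (u (x - h) - u x) := by
    intro x
    have h1 : mol χ u x = ∫ h, χ h * u (x - h) := by
      have h2 := integral_sub_left_eq_self (fun h => χ h * u (x - h)) volume x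
      simp only [sub_sub_cancel] at h2
      exact h2
    have h3 : MemLp (fun h => u (x - h)) 2 := hu.comp_measurePreserving
      (Measure.measurePreserving_sub_left volume x)
    have h4 : Integrable (fun h => χ h * u (x - h)) := mχ.integrable_mul h3
    have h5 : ∫ h, χ h * u x = u x := by
      rw [integral_mul_const, hχ.int, one_mul]
    calc mol χ u x - u x = (∫ h, χ h * u (x - h)) - ∫ h, χ h * u x := by rw [h1, h5]
      _ = ∫ h, (χ h * u (x - h) - χ h * u x) := (integral_sub h4 (iχ.mul_const _)).symm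
      _ = _ := by
        refine integral_congr_ae (ae_of_all _ fun h => ?_)
        ring
  have m2 : Measurable (Function.uncurry fun (x h : E d) => ‖χ h‖ₑ * ‖u (x - h) - u x‖ₑ ^ 2) := by
    have hmu := hm.measurable
    have hmc := hcχ.measurable
    unfold Function.uncurry
    fun_prop
  have m3 : ∀ x, Measurable fun h => ‖u (x - h) - u x‖ₑ := by
    intro x
    have hmu := hm.measurable
    fun_prop
  have b1 : ∀ x, ‖mol χ u x - u x‖ₑ ^ 2 ≤ ∫⁻ h, ‖χ h‖ₑ * ‖u (x - h) - u x‖ₑ ^ 2 := by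
    intro x
    rw [e1 x]
    have h1 : ‖∫ h, χ h * (u (x - h) - u x)‖ₑ ≤ ∫⁻ h, ‖χ h‖ₑ * ‖u (x - h) - u x‖ₑ := by
      refine le_trans (enorm_integral_le_lintegral_enorm _) (le_of_eq ?_)
      refine lintegral_congr fun h => ?_
      rw [enorm_mul]
    have h2 := cs volume (fun h => ‖χ h‖ₑ) (fun h => ‖u (x - h) - u x‖ₑ)
      hcχ.enorm.measurable.aemeasurable (m3 x).aemeasurable
    rw [lχ, one_mul] at h2
    exact le_trans (by gcongr) h2
  unfold Y315.OP.sq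
  calc ∫⁻ x, ‖mol χ u x - u x‖ₑ ^ 2
      ≤ ∫⁻ x, ∫⁻ h, ‖χ h‖ₑ * ‖u (x - h) - u x‖ₑ ^ 2 := lintegral_mono b1
    _ = ∫⁻ h, ∫⁻ x, ‖χ h‖ₑ * ‖u (x - h) - u x‖ₑ ^ 2 :=
        lintegral_lintegral_swap m2.aemeasurable
    _ = ∫⁻ h, ‖χ h‖ₑ * ∫⁻ x, ‖u (x - h) - u x‖ₑ ^ 2 := by
        refine lintegral_congr fun h => ?_
        rw [lintegral_const_mul' _ _ (by simp)]
    _ ≤ ∫⁻ h, ‖χ h‖ₑ * (ENNReal.ofReal (r ^ 2) * G) := by
        refine lintegral_mono fun h => ?_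
        by_cases hh : r ≤ ‖h‖
        · simp [hχ.sp h hh]
        · have h1 : ‖h‖ₑ ^ 2 ≤ ENNReal.ofReal (r ^ 2) := by
            rw [ENNReal.ofReal_pow hr.le, ← ofReal_norm_eq_enorm]
            gcongr
            exact (not_le.1 hh).le
          gcongr
          exact le_trans (ht h) (by gcongr)
    _ = ENNReal.ofReal (r ^ 2) * G := by
        rw [lintegral_mul_const _ hcχ.enorm.measurable, lχ, one_mul]

theorem tr (h1 : S_MOL) (h2 : S_CONV) : S_TR := by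
  intro d r χ hd hr hχ u g hu hg hug
  obtain ⟨u', hm, hae⟩ := hu.1
  have hu' : MemLp u' 2 := hu.ae_eq hae
  have hug' : WGrad u' g := by
    intro φ hφ v
    rw [← hug φ hφ v]
    refine integral_congr_ae ?_
    filter_upwards [hae] with x hx
    rw [hx]
  have e1 : mol χ u = mol χ u' := by
    ext x
    unfold mol
    refine integral_congr_ae ?_
    filter_upwards [hae] with y hy
    rw [hy]
  have e2 : Y315.OP.sq (fun x => mol χ u x - u x) = Y315.OP.sq (fun x => mol χ u' x - u' x) := by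
    rw [e1]
    unfold Y315.OP.sq
    refine lintegral_congr_ae ?_
    filter_upwards [hae] with y hy
    rw [hy]
  rw [e2]
  exact tr_aux r χ hr hχ u' _ hu' hm (transl h1 h2 hd u' g hu' hg hug')

end Pool.Agent.Y344.OP.TR
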